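import Mathlib

namespace Pool.Agent.H.MP_93ccfe_al

/-- Left invariant tree-like pseudo-distance on a group. -/
structure TD (G : Type) [Group G] where
  D : G → G → ℝ
  refl : ∀ x, D x x = 0
  symm : ∀ x y, D x y = D y x
  four : ∀ x y z w, D x y + D z w ≤ max (D x z + D y w) (D x w + D y z)
  inv : ∀ g x y, D (g * x) (g * y) = D x y
  fin : ∀ u w, {h | D u (h * u) + D w (h * w) < 2 * D u w}.Finite

variable {G : Type} [Group G]

theorem TD.nonneg (T : TD G) (x y : G) : 0 ≤ T.D x y := by
  have h := T.four x x y y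
  rw [T.refl, T.refl, max_self] at h
  linarith

/-- Points on formal segments between two group elements. -/
structure Pp (T : TD G) where
  e : Bool → G
  r : Bool → ℝ
  nn : ∀ i, 0 ≤ r i
  sm : r false + r true = T.D (e false) (e true)

variable {T : TD G}

def tm (p q : Pp T) (i j : Bool) : ℝ := T.D (p.e i) (q.e j) - p.r i - q.r j

def dd (p q : Pp T) : ℝ :=
  max (max (tm p q false false) (tm p q false true)) (max (tm p q true false) (tm p q true true))

theorem tm_le (p q : Pp T) (i j : Bool) : tm p q i j ≤ dd p q := by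
  unfold dd
  cases i <;> cases j <;> simp

theorem dd_ex (p q : Pp T) : ∃ i j, dd p q = tm p q i j := by
  unfold dd
  rcases max_choice (max (tm p q false false) (tm p q false true))
    (max (tm p q true false) (tm p q true true)) with h | h <;> rw [h]
  · rcases max_choice (tm p q false false) (tm p q false true) with h | h <;> rw [h] <;>
      exact ⟨_, _, rfl⟩
  · rcases max_choice (tm p q true false) (tm p q true true) with h | h <;> rw [h] <;>
      exact ⟨_, _, rfl⟩

theorem dd_le {p q : Pp T} {c : ℝ} (h : ∀ i j, tm p q i j ≤ c) : dd p q ≤ c := by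
  obtain ⟨i, j, e⟩ := dd_ex p q
  rw [e]; exact h i j

theorem De (p : Pp T) (i j : Bool) : T.D (p.e i) (p.e j) ≤ p.r i + p.r j := by
  have h0 := p.nn false
  have h1 := p.nn true
  have := p.sm
  cases i <;> cases j
  · rw [T.refl]; linarith
  · linarith
  · rw [T.symm]; linarith
  · rw [T.refl]; linarith

theorem dd_self (p : Pp T) : dd p p = 0 := by
  apply le_antisymm
  · apply dd_le
    intro i j
    have := De p i j
    unfold tm; linarith
  · have := tm_le p p false true
    have h := p.sm
    unfold tm at this; linarith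

theorem tm_comm (p q : Pp T) (i j : Bool) : tm p q i j = tm q p j i := by
  unfold tm; rw [T.symm]; ring

theorem dd_comm (p q : Pp T) : dd p q = dd q p := by
  apply le_antisymm <;> apply dd_le <;> intro i j <;> rw [tm_comm] <;> exact tm_le _ _ _ _

theorem dd_four (x y z w : Pp T) :
    dd x y + dd z w ≤ max (dd x z + dd y w) (dd x w + dd y z) := by
  obtain ⟨i, j, e1⟩ := dd_ex x y
  obtain ⟨k, l, e2⟩ := dd_ex z w
  have h := T.four (x.e i) (y.e j) (z.e k) (w.e l)
  have a1 := tm_le x z i k
  have a2 := tm_le y w j l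
  have a3 := tm_le x w i l
  have a4 := tm_le y z j k
  unfold tm at *
  rw [e1, e2]
  rcases le_max_iff.1 h with h | h
  · exact le_max_of_le_left (by linarith)
  · exact le_max_of_le_right (by linarith)

instance : PseudoMetricSpace (Pp T) where
  dist := dd
  dist_self := dd_self
  dist_comm := dd_comm
  dist_triangle x y z := by
    have h := dd_four x z y y
    rw [dd_self, dd_comm z y, max_self] at h
    linarith

theorem dist_eq (p q : Pp T) : dist p q = dd p q := rfl

instance : MulAction G (Pp T) where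
  smul g p := ⟨fun i => g * p.e i, p.r, p.nn, by rw [T.inv]; exact p.sm⟩
  one_smul p := by
    cases p
    show Pp.mk _ _ _ _ = Pp.mk _ _ _ _
    simp
  mul_smul g h p := by
    cases p
    show Pp.mk _ _ _ _ = Pp.mk _ _ _ _
    congr 1
    funext i
    exact mul_assoc _ _ _

theorem smul_e (g : G) (p : Pp T) (i : Bool) : (g • p).e i = g * p.e i := rfl
theorem smul_r (g : G) (p : Pp T) (i : Bool) : (g • p).r i = p.r i := rfl

theorem dd_smul (g : G) (p q : Pp T) : dd (g • p) (g • q) = dd p q := by
  have : ∀ i j, tm (g • p) (g • q) i j = tm p q i j := by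
    intro i j
    unfold tm
    rw [smul_e, smul_e, smul_r, smul_r, T.inv]
  unfold dd
  simp only [this]

instance : ContinuousConstSMul G (Pp T) where
  continuous_const_smul g := (Isometry.of_dist_eq (fun p q => dd_smul g p q)).continuous

/-- The vertex attached to a group element. -/
def vx (T : TD G) (g : G) : Pp T := ⟨fun _ => g, fun _ => 0, fun _ => le_rfl, by rw [T.refl]; ring⟩

theorem dd_vx (g h : G) : dd (vx T g) (vx T h) = T.D g h := by
  unfold dd tm vx; simp

theorem smul_vx (g h : G) : g • vx T h = vx T (g * h) := rfl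

theorem dd_vx_le (p : Pp T) (i : Bool) : dd (vx T (p.e i)) p ≤ p.r i := by
  apply dd_le
  intro a b
  have := De p i b
  unfold tm vx; simp only; linarith

/-- The point at parameter `s` on the segment from `u` to `w`. -/
def seg (T : TD G) (u w : G) (s : ℝ) : Pp T :=
  ⟨fun b => bif b then w else u,
   fun b => bif b then T.D u w - max 0 (min s (T.D u w)) else max 0 (min s (T.D u w)),
   by
    intro b
    have := T.nonneg u w
    cases b
    · simp
    · simp [this],
   by simp⟩

theorem seg_r {u w : G} {s : ℝ} (h0 : 0 ≤ s) (h1 : s ≤ T.D u w) :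
    (seg T u w s).r false = s ∧ (seg T u w s).r true = T.D u w - s := by
  unfold seg
  simp only [cond_false, cond_true]
  rw [min_eq_left h1, max_eq_right h0]
  exact ⟨rfl, rfl⟩

theorem seg_dd {u w : G} {s t : ℝ} (h0 : 0 ≤ s) (h1 : s ≤ T.D u w) (h2 : 0 ≤ t)
    (h3 : t ≤ T.D u w) : dd (seg T u w s) (seg T u w t) = |s - t| := by
  obtain ⟨a1, a2⟩ := seg_r h0 h1
  obtain ⟨b1, b2⟩ := seg_r h2 h3
  have e1 : ∀ x, (seg T u w x).e false = u := fun _ => rfl
  have e2 : ∀ x, (seg T u w x).e true = w := fun _ => rfl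
  have n1 := le_abs_self (s - t)
  have n2 := neg_abs_le (s - t)
  apply le_antisymm
  · apply dd_le
    intro i j
    unfold tm
    cases i <;> cases j <;> simp only [e1, e2, a1, a2, b1, b2, T.refl, T.symm w u] <;> linarith
  · have c1 := tm_le (seg T u w s) (seg T u w t) false true
    have c2 := tm_le (seg T u w s) (seg T u w t) true false
    unfold tm at c1 c2
    simp only [e1, e2, a1, a2, b1, b2, T.symm w u] at c1 c2
    rw [abs_le]
    constructor <;> linarith

theorem geod (p q : Pp T) : ∃ f : ℝ → Pp T, dd (f 0) p = 0 ∧ dd (f (dd p q)) q = 0 ∧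
    ∀ s ∈ Set.Icc 0 (dd p q), ∀ t ∈ Set.Icc 0 (dd p q), dd (f s) (f t) = |s - t| := by
  obtain ⟨i, j, e⟩ := dd_ex p q
  have hp := p.nn i
  have hq := q.nn j
  have hd : 0 ≤ dd p q := dist_nonneg (x := p) (y := q)
  have e' : T.D (p.e i) (q.e j) = dd p q + p.r i + q.r j := by rw [e]; unfold tm; ring
  have e1 : ∀ x, (seg T (p.e i) (q.e j) x).e false = p.e i := fun _ => rfl
  have e2 : ∀ x, (seg T (p.e i) (q.e j) x).e true = q.e j := fun _ => rfl
  refine ⟨fun s => seg T (p.e i) (q.e j) (p.r i + s), ?_, ?_, ?_⟩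
  · refine le_antisymm ?_ (dist_nonneg (x := seg T (p.e i) (q.e j) (p.r i + 0)) (y := p))
    obtain ⟨a1, a2⟩ := seg_r (T := T) (u := p.e i) (w := q.e j) (s := p.r i + 0) (by linarith)
      (by linarith)
    apply dd_le
    intro a b
    have c1 := De p i b
    have c2 := tm_le p q b j
    unfold tm at c2 ⊢
    cases a <;> simp only [e1, e2, a1, a2]
    · linarith
    · rw [T.symm]; linarith
  · refine le_antisymm ?_
      (dist_nonneg (x := seg T (p.e i) (q.e j) (p.r i + dd p q)) (y := q))
    obtain ⟨a1, a2⟩ := seg_r (T := T) (u := p.e i) (w := q.e j) (s := p.r i + dd p q)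
      (by linarith) (by linarith)
    apply dd_le
    intro a b
    have c1 := De q j b
    have c2 := tm_le p q i b
    unfold tm at c2 ⊢
    cases a <;> simp only [e1, e2, a1, a2]
    · linarith
    · linarith
  · intro s hs t ht
    rw [seg_dd (by linarith [hs.1]) (by linarith [hs.2]) (by linarith [ht.1]) (by linarith [ht.2])]
    congr 1; ring

/-- The real tree. -/
abbrev X (T : TD G) : Type := SeparationQuotient (Pp T)

theorem X_iso (g : G) (x y : X T) : dist (g • x) (g • y) = dist x y := by
  obtain ⟨p, rfl⟩ := SeparationQuotient.surjective_mk x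
  obtain ⟨q, rfl⟩ := SeparationQuotient.surjective_mk y
  rw [← SeparationQuotient.mk_smul, ← SeparationQuotient.mk_smul, SeparationQuotient.dist_mk,
    SeparationQuotient.dist_mk]
  exact dd_smul g p q

theorem X_four (x y z w : X T) :
    dist x y + dist z w ≤ max (dist x z + dist y w) (dist x w + dist y z) := by
  obtain ⟨x, rfl⟩ := SeparationQuotient.surjective_mk x
  obtain ⟨y, rfl⟩ := SeparationQuotient.surjective_mk y
  obtain ⟨z, rfl⟩ := SeparationQuotient.surjective_mk z
  obtain ⟨w, rfl⟩ := SeparationQuotient.surjective_mk w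
  simp only [SeparationQuotient.dist_mk]
  exact dd_four x y z w

theorem X_geod (x y : X T) : ∃ f : ℝ → X T, f 0 = x ∧ f (dist x y) = y ∧
    ∀ s ∈ Set.Icc 0 (dist x y), ∀ t ∈ Set.Icc 0 (dist x y), dist (f s) (f t) = |s - t| := by
  obtain ⟨p, rfl⟩ := SeparationQuotient.surjective_mk x
  obtain ⟨q, rfl⟩ := SeparationQuotient.surjective_mk y
  obtain ⟨f, h1, h2, h3⟩ := geod p q
  refine ⟨fun s => SeparationQuotient.mk (f s), ?_, ?_, ?_⟩
  · apply eq_of_dist_eq_zero
    rw [SeparationQuotient.dist_mk]; exact h1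
  · apply eq_of_dist_eq_zero
    rw [SeparationQuotient.dist_mk, SeparationQuotient.dist_mk]; exact h2
  · intro s hs t ht
    rw [SeparationQuotient.dist_mk] at hs ht ⊢
    exact h3 s hs t ht

/-- vertex in the tree -/
def V (T : TD G) (g : G) : X T := SeparationQuotient.mk (vx T g)

theorem V_dist (g h : G) : dist (V T g) (V T h) = T.D g h := by
  unfold V
  rw [SeparationQuotient.dist_mk]; exact dd_vx g h

theorem V_smul (g h : G) : g • V T h = V T (g * h) := by
  unfold V
  rw [← SeparationQuotient.mk_smul, smul_vx]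

theorem X_low (g : G) (x y : X T) :
    dist x (g • g • x) - dist x (g • x) ≤ dist y (g • y) := by
  have h := X_four x (g • g • x) (g • x) (g • y)
  rw [X_iso g x y, X_iso g (g • x) y, X_iso g (g • x) x] at h
  have a1 := dist_triangle (g • x) (g • y) y
  have a2 := dist_triangle x y (g • y)
  rw [X_iso, dist_comm (g • y) y] at a1
  rw [dist_comm (g • x) x] at h
  rcases le_max_iff.1 h with h | h <;> linarith

theorem X_btw {p a b : X T} (h : dist a p + dist p b = dist a b) (z : X T) :
    dist p z ≤ max (dist a z - dist a p) (dist b z - dist p b) := by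
  have h4 := X_four p z a b
  rw [dist_comm p a, dist_comm z b, dist_comm z a] at h4
  rcases le_max_iff.1 h4 with h4 | h4
  · exact le_max_of_le_right (by linarith)
  · exact le_max_of_le_left (by linarith)

theorem X_up (g : G) (x : X T) : ∃ m : X T, dist x m + dist m (g • x) = dist x (g • x) ∧
    dist m (g • m) ≤ max 0 (dist x (g • g • x) - dist x (g • x)) := by
  obtain ⟨f, h0, h1, h2⟩ := X_geod x (g • x)
  have hb : 0 ≤ dist x (g • x) := dist_nonneg
  set b := dist x (g • x) with hbd
  have m1 : dist x (f (b / 2)) = b / 2 := by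
    have := h2 0 ⟨le_rfl, hb⟩ (b / 2) ⟨by linarith, by linarith⟩
    rw [h0, zero_sub, abs_neg, abs_of_nonneg (by linarith)] at this
    exact this
  have m2 : dist (f (b / 2)) (g • x) = b / 2 := by
    have := h2 (b / 2) ⟨by linarith, by linarith⟩ b ⟨hb, le_rfl⟩
    rw [h1, abs_of_nonpos (by linarith)] at this
    linarith
  set m := f (b / 2)
  have hm : dist x m + dist m (g • x) = dist x (g • x) := by rw [m1, m2]; linarith
  refine ⟨m, by linarith, ?_⟩
  have k1 : dist (g • x) (g • m) = b / 2 := by rw [X_iso, m1]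
  have k2 : dist (g • m) (g • g • x) = b / 2 := by rw [X_iso, m2]
  have k3 : dist (g • x) (g • g • x) = b := by rw [X_iso]
  have hm' : dist (g • x) (g • m) + dist (g • m) (g • g • x) = dist (g • x) (g • g • x) := by
    rw [k1, k2, k3]; ring
  have t1 := X_btw hm (g • m)
  have t2 := X_btw hm' x
  rw [m1, m2, k1] at t1
  rw [k1, k2, dist_comm (g • x) x, dist_comm (g • g • x) x, dist_comm (g • m) x] at t2
  rcases le_max_iff.1 t1 with t1 | t1
  · rcases le_max_iff.1 t2 with t2 | t2
    · exact le_max_of_le_left (by linarith)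
    · exact le_max_of_le_right (by linarith)
  · exact le_max_of_le_left (by linarith)

theorem X_tl (g : G) :
    (⨅ x : X T, dist x (g • x)) = max 0 (T.D 1 (g * g) - T.D 1 g) := by
  haveI : Nonempty (X T) := ⟨V T 1⟩
  have e1 : dist (V T 1) (g • g • V T 1) = T.D 1 (g * g) := by
    rw [V_smul, V_smul, V_dist, mul_one]
  have e2 : dist (V T 1) (g • V T 1) = T.D 1 g := by
    rw [V_smul, V_dist, mul_one]
  apply le_antisymm
  · obtain ⟨m, -, hm⟩ := X_up g (V T 1)
    rw [e1, e2] at hm
    exact ciInf_le_of_le ⟨0, by rintro _ ⟨x, rfl⟩; exact dist_nonneg⟩ m hm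
  · apply le_ciInf
    intro y
    have := X_low g (V T 1) y
    rw [e1, e2] at this
    exact max_le dist_nonneg this

theorem X_arc [IsMulTorsionFree G] (g : G) (x y : X T) (hxy : x ≠ y) (hx : g • x = x)
    (hy : g • y = y) : g = 1 := by
  obtain ⟨p, rfl⟩ := SeparationQuotient.surjective_mk x
  obtain ⟨q, rfl⟩ := SeparationQuotient.surjective_mk y
  have hpos : 0 < dd p q := by
    have := dist_pos.2 hxy
    rwa [SeparationQuotient.dist_mk] at this
  obtain ⟨i, j, e⟩ := dd_ex p q
  have key : ∀ (s : Pp T) (k : Bool) (h : G),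
      h • SeparationQuotient.mk s = SeparationQuotient.mk s →
      T.D (s.e k) (h * s.e k) ≤ 2 * s.r k := by
    intro s k h hs
    have a1 : dist (V T (s.e k)) (SeparationQuotient.mk s) ≤ s.r k := by
      unfold V
      rw [SeparationQuotient.dist_mk]; exact dd_vx_le s k
    have a2 := X_iso h (V T (s.e k)) (SeparationQuotient.mk s)
    rw [hs, V_smul] at a2
    have a3 := dist_triangle_right (V T (s.e k)) (V T (h * s.e k)) (SeparationQuotient.mk s)
    rw [V_dist] at a3
    linarith
  have hall : ∀ n : ℕ, g ^ n ∈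
      {h | T.D (p.e i) (h * p.e i) + T.D (q.e j) (h * q.e j) < 2 * T.D (p.e i) (q.e j)} := by
    intro n
    have f1 : ∀ z : X T, g • z = z → g ^ n • z = z := by
      intro z hz
      induction n with
      | zero => simp
      | succ n ih => rw [pow_succ, mul_smul, hz, ih]
    have b1 := key p i _ (f1 _ hx)
    have b2 := key q j _ (f1 _ hy)
    unfold tm at e
    rw [Set.mem_ofPred_eq]
    linarith
  by_contra hg
  have hinj : Function.Injective (fun n : ℕ => g ^ n) :=
    injective_pow_iff_not_isOfFinOrder.2 (fun h => hg ((isOfFinOrder_iff_eq_one g).1 h))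
  exact Set.infinite_of_injective_forall_mem hinj hall (T.fin _ _)

theorem X_fix [IsMulTorsionFree G] {a : G} (ha : a ≠ 1) (h0 : T.D 1 a = 0) {x : X T}
    (hx : a • x = x) : x = V T 1 := by
  by_contra hne
  refine ha (X_arc a x (V T 1) hne hx ?_)
  apply eq_of_dist_eq_zero
  rw [V_smul, V_dist, mul_one, T.symm, h0]

theorem X_min [IsMulTorsionFree G] {a : G} (ha : a ≠ 1) (h0 : T.D 1 a = 0) (Y : Set (X T))
    (hne : Y.Nonempty) (hinv : ∀ (g : G), ∀ y ∈ Y, g • y ∈ Y)
    (hcv : ∀ x ∈ Y, ∀ y ∈ Y, ∀ z, dist x z + dist z y = dist x y → z ∈ Y) : Y = Set.univ := by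
  obtain ⟨y, hy⟩ := hne
  obtain ⟨m, hm, hm2⟩ := X_up a y
  have l := X_low a y (V T 1)
  rw [V_smul, V_dist, mul_one, h0] at l
  rw [max_eq_left l] at hm2
  have hfix : a • m = m := (eq_of_dist_eq_zero (le_antisymm hm2 dist_nonneg)).symm
  have hmY : m ∈ Y := hcv y hy _ (hinv a y hy) m hm
  rw [X_fix ha h0 hfix] at hmY
  have hV : ∀ g, V T g ∈ Y := by
    intro g
    have := hinv g _ hmY
    rwa [V_smul, mul_one] at this
  apply Set.eq_univ_of_forall
  intro z
  obtain ⟨p, rfl⟩ := SeparationQuotient.surjective_mk z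
  apply hcv _ (hV (p.e false)) _ (hV (p.e true))
  apply le_antisymm _ (dist_triangle _ _ _)
  rw [V_dist, dist_comm (SeparationQuotient.mk p)]
  unfold V
  rw [SeparationQuotient.dist_mk, SeparationQuotient.dist_mk]
  have a1 := dd_vx_le p false
  have a2 := dd_vx_le p true
  have a3 := p.sm
  rw [dist_eq, dist_eq]
  linarith

theorem X_nontriv [IsMulTorsionFree G] {a c : G} (ha : a ≠ 1) (h0 : T.D 1 a = 0)
    (hc : T.D 1 c ≠ 0) (x : X T) : ∃ g : G, g • x ≠ x := by
  by_contra h
  push Not at h
  have hx := X_fix ha h0 (h a)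
  have := h c
  rw [hx, V_smul, mul_one] at this
  apply hc
  rw [← V_dist, this, dist_self]

end Pool.Agent.H.MP_93ccfe_al
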