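import Pool.Agent.H.MP_93ccfe_al.Tree

namespace Pool.Agent.H.MP_93ccfe_al

variable {G : Type} [Group G]

/-- the set of translates of the wall that separate `g` from `h` -/
def sep (χ : G → Prop) (g h : G) : Set G := {k | ¬ (χ (k * g) ↔ χ (k * h))}

theorem sep_mul (χ : G → Prop) (g x y : G) :
    sep χ (g * x) (g * y) = (fun k => k * g⁻¹) '' sep χ x y := by
  ext k
  simp only [sep, Set.mem_ofPred_eq, Set.mem_image]
  constructor
  · intro h
    exact ⟨k * g, by simpa [mul_assoc] using h, by simp⟩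
  · rintro ⟨l, h, rfl⟩
    simpa [mul_assoc] using h

theorem sep_ncard (χ : G → Prop) (g x y : G) :
    (sep χ (g * x) (g * y)).ncard = (sep χ x y).ncard := by
  rw [sep_mul, Set.ncard_image_of_injective _ (mul_left_injective g⁻¹)]

theorem sep_fin {χ : G → Prop} (hf : ∀ g, (sep χ 1 g).Finite) (x y : G) : (sep χ x y).Finite := by
  have := sep_mul χ x 1 (x⁻¹ * y)
  rw [mul_one, mul_inv_cancel_left] at this
  rw [this]
  exact (hf _).image _

theorem ncard_four {A B C E : Set G} (hA : A.Finite) (hB : B.Finite) (hC : C.Finite)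
    (hE : E.Finite) (h1 : A ∪ B ⊆ C ∪ E) (h2 : A ∩ B ⊆ C ∩ E) :
    A.ncard + B.ncard ≤ C.ncard + E.ncard := by
  rw [← Set.ncard_union_add_ncard_inter A B hA hB, ← Set.ncard_union_add_ncard_inter C E hC hE]
  exact add_le_add (Set.ncard_le_ncard h1 (hC.union hE))
    (Set.ncard_le_ncard h2 (hC.inter_of_left _))

/-- The tree-like distance given by a nested family of walls. -/
noncomputable def wallTD (χ : G → Prop) (wt : ℝ) (hw : 0 < wt) (hf : ∀ g, (sep χ 1 g).Finite)
    (hn : ∀ k : G, k ≠ 1 → ∃ α β : Prop, ∀ h, (χ h ↔ α) ∨ (χ (k * h) ↔ β)) : TD G where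
  D x y := wt * (sep χ x y).ncard
  refl x := by simp [sep]
  symm x y := by
    have : sep χ x y = sep χ y x := by
      ext k; simp only [sep, Set.mem_ofPred_eq]; grind
    rw [this]
  inv g x y := by rw [sep_ncard]
  four x y z w := by
    have F := sep_fin hf
    by_cases h : ∃ k, (χ (k * x) ↔ χ (k * z)) ∧ (χ (k * y) ↔ χ (k * w)) ∧
        ¬ (χ (k * x) ↔ χ (k * y))
    · obtain ⟨k, hk⟩ := h
      have h' : ∀ l, ¬ ((χ (l * x) ↔ χ (l * w)) ∧ (χ (l * y) ↔ χ (l * z)) ∧
          ¬ (χ (l * x) ↔ χ (l * y))) := by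
        intro l hl
        by_cases e : l * k⁻¹ = 1
        · rw [mul_inv_eq_one] at e
          subst e
          grind
        · obtain ⟨α, β, hh⟩ := hn _ e
          have a1 := hh (k * x)
          have a2 := hh (k * y)
          have a3 := hh (k * z)
          have a4 := hh (k * w)
          simp only [mul_assoc, inv_mul_cancel_left] at a1 a2 a3 a4
          grind
      apply le_max_of_le_right
      have := ncard_four (F x y) (F z w) (F x w) (F y z)
        (by
          intro l hl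
          have := h' l
          simp only [sep, Set.mem_union, Set.mem_ofPred_eq] at hl ⊢
          grind)
        (by
          intro l hl
          have := h' l
          simp only [sep, Set.mem_inter_iff, Set.mem_ofPred_eq] at hl ⊢
          grind)
      rw [← mul_add, ← mul_add]
      apply mul_le_mul_of_nonneg_left _ hw.le
      exact_mod_cast this
    · apply le_max_of_le_left
      have h' := not_exists.1 h
      have := ncard_four (F x y) (F z w) (F x z) (F y w)
        (by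
          intro l hl
          have := h' l
          simp only [sep, Set.mem_union, Set.mem_ofPred_eq] at hl ⊢
          grind)
        (by
          intro l hl
          have := h' l
          simp only [sep, Set.mem_inter_iff, Set.mem_ofPred_eq] at hl ⊢
          grind)
      rw [← mul_add, ← mul_add]
      apply mul_le_mul_of_nonneg_left _ hw.le
      exact_mod_cast this
  fin u w := by
    have F := sep_fin hf
    refine ((F u w).image2 (fun a b => a⁻¹ * b) (F u w)).subset ?_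
    intro h hh
    by_contra hc
    have hd : ∀ k, k ∈ sep χ u w → k ∉ sep χ (h * u) (h * w) := by
      intro k h1 h2
      apply hc
      refine ⟨k, h1, k * h, ?_, by simp⟩
      simpa [sep, mul_assoc] using h2
    have := ncard_four (F u w) (F (h * u) (h * w)) (F u (h * u)) (F w (h * w))
      (by
        intro l hl
        have := hd l
        simp only [sep, Set.mem_union, Set.mem_ofPred_eq] at hl this ⊢
        grind)
      (by
        intro l hl
        exact absurd hl.2 (hd l hl.1))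
    rw [sep_ncard] at this
    rw [Set.mem_ofPred_eq, ← mul_add] at hh
    have h2 : ((sep χ u w).ncard : ℝ) + (sep χ u w).ncard ≤
        (sep χ u (h * u)).ncard + (sep χ w (h * w)).ncard := by exact_mod_cast this
    nlinarith

section Free

variable {ι : Type} [DecidableEq ι] (i₀ : ι)

open FreeGroup

/-- skew product generator -/
def sig (i : ι) : Equiv.Perm (FreeGroup ι × Bool) where
  toFun p := (p.1 * of i, if i = i₀ ∧ p.1 = 1 then !p.2 else p.2)
  invFun p := (p.1 * (of i)⁻¹, if i = i₀ ∧ p.1 * (of i)⁻¹ = 1 then !p.2 else p.2)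
  left_inv p := by
    obtain ⟨a, b⟩ := p
    simp only [mul_inv_cancel_right]
    split_ifs <;> simp
  right_inv p := by
    obtain ⟨a, b⟩ := p
    simp only [inv_mul_cancel_right]
    split_ifs <;> simp

def phi : FreeGroup ι →* Equiv.Perm (FreeGroup ι × Bool) := lift (fun i => (sig i₀ i)⁻¹)

theorem phi_fst (g : FreeGroup ι) : ∀ p, (phi i₀ g p).1 = p.1 * g⁻¹ := by
  induction g using FreeGroup.induction_on with
  | C1 => simp
  | of i => intro p; simp [phi, sig, Equiv.Perm.inv_def]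
  | inv_of i _ => intro p; simp [phi, sig]
  | mul x y hx hy => intro p; simp [hx, hy, mul_assoc]

/-- reduced words starting with the distinguished letter -/
def chi (h : FreeGroup ι) : Prop := (phi i₀ h⁻¹ (1, false)).2 = true

theorem chi_one : ¬ chi i₀ 1 := by simp [chi]

theorem chi_step (h : FreeGroup ι) (i : ι) :
    chi i₀ (h * of i) ↔ (chi i₀ h ↔ ¬ (i = i₀ ∧ h = 1)) := by
  have e : phi i₀ (h * of i)⁻¹ (1, false) = sig i₀ i (phi i₀ h⁻¹ (1, false)) := by
    rw [mul_inv_rev, MonoidHom.map_mul]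
    simp [phi]
  have f := phi_fst i₀ h⁻¹ (1, false)
  simp only [inv_inv, one_mul] at f
  unfold chi
  rw [e]
  simp only [sig, Equiv.coe_fn_mk, f]
  split_ifs with hh
  · simp [hh]
  · simp [hh]

omit [DecidableEq ι] in
theorem const_of {Z : FreeGroup ι → Prop} (h : ∀ g i, Z (g * of i) ↔ Z g) (g : FreeGroup ι) :
    ∀ x, Z (x * g) ↔ Z x := by
  induction g using FreeGroup.induction_on with
  | C1 => simp
  | of i => intro x; exact h x i
  | inv_of i _ =>
    intro x
    have := h (x * (of i)⁻¹) i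
    simp only [inv_mul_cancel_right] at this
    exact this.symm
  | mul x y hx hy => intro z; rw [← mul_assoc, hy, hx]

theorem chi_fin (g : FreeGroup ι) : (sep (chi i₀) 1 g).Finite := by
  induction g using FreeGroup.induction_on with
  | C1 => simp [sep]
  | of i =>
    refine (Set.finite_singleton 1).subset ?_
    intro k hk
    simp only [sep, Set.mem_ofPred_eq, mul_one, chi_step] at hk
    simp only [Set.mem_singleton_iff]
    grind
  | inv_of i ih =>
    have := sep_mul (chi i₀) (of i)⁻¹ (of i) 1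
    rw [inv_mul_cancel, mul_one] at this
    rw [this]
    apply Set.Finite.image
    refine ih.subset ?_
    intro k hk
    simp only [sep, Set.mem_ofPred_eq] at hk ⊢
    grind
  | mul x y hx hy =>
    have := sep_mul (chi i₀) x 1 y
    rw [mul_one] at this
    have h2 : (sep (chi i₀) x (x * y)).Finite := by rw [this]; exact hy.image _
    refine (hx.union h2).subset ?_
    intro k hk
    simp only [sep, Set.mem_ofPred_eq, Set.mem_union] at hk ⊢
    grind

theorem chi_nest (k : FreeGroup ι) (hk : k ≠ 1) :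
    ∃ α β : Prop, ∀ h, (chi i₀ h ↔ α) ∨ (chi i₀ (k * h) ↔ β) := by
  refine ⟨chi i₀ k⁻¹, chi i₀ k, fun h => ?_⟩
  have := const_of (Z := fun h => (chi i₀ h ↔ chi i₀ k⁻¹) ∨ (chi i₀ (k * h) ↔ chi i₀ k)) ?_ h 1
  · simpa using this
  · intro g i
    simp only [← mul_assoc, chi_step]
    by_cases h1 : g = 1
    · subst h1
      simp [hk]
    · by_cases h2 : k * g = 1
      · have : g = k⁻¹ := eq_inv_of_mul_eq_one_right h2
        subst this
        simp [hk]
      · simp [h1, h2]

variable {i₁ : ι} (hi : i₁ ≠ i₀)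

/-- the twisted generator -/
def dm (i₁ : ι) (m : ℕ) : FreeGroup ι := of i₀ * of i₁ ^ m

include hi in
theorem chi_pow (m : ℕ) (h : FreeGroup ι) : chi i₀ (h * of i₁ ^ m) ↔ chi i₀ h := by
  induction m with
  | zero => simp
  | succ m ih => rw [pow_succ, ← mul_assoc, chi_step, ih]; simp [hi]

include hi in
theorem chi_dm (m : ℕ) (h : FreeGroup ι) :
    chi i₀ (h * dm i₀ i₁ m) ↔ (chi i₀ h ↔ h ≠ 1) := by
  unfold dm
  rw [← mul_assoc, chi_pow i₀ hi, chi_step]
  simp

include hi in
theorem dm_ne (m : ℕ) : dm i₀ i₁ m ≠ 1 := by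
  intro h
  have := chi_dm i₀ hi m 1
  rw [h] at this
  simp at this

omit [DecidableEq ι] in
theorem dm_inj : Function.Injective (dm i₀ i₁) := by
  intro m n h
  have h1 : (of i₁ : FreeGroup ι) ≠ 1 := of_ne_one i₁
  exact injective_pow_iff_not_isOfFinOrder.2
    (fun h => h1 ((isOfFinOrder_iff_eq_one _).1 h)) (mul_left_cancel h)

theorem const_of' (m : ℕ) {Z : FreeGroup ι → Prop}
    (h : ∀ g i, i ≠ i₀ → (Z (g * of i) ↔ Z g)) (hi : i₁ ≠ i₀)
    (hd : ∀ g, Z (g * dm i₀ i₁ m) ↔ Z g) (g x : FreeGroup ι) : Z (x * g) ↔ Z x := by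
  apply const_of
  intro g i
  by_cases e : i = i₀
  · subst e
    have p : ∀ (n : ℕ) (y : FreeGroup ι), Z (y * of i₁ ^ n) ↔ Z y := by
      intro n y
      induction n with
      | zero => simp
      | succ n ih => rw [pow_succ, ← mul_assoc, h _ _ hi, ih]
    rw [← hd g, dm, ← mul_assoc, p]
  · exact h g i e

/-- reduced words (in the twisted basis) starting with the twisted generator or its inverse -/
def chi' (i₁ : ι) (m : ℕ) (h : FreeGroup ι) : Prop := chi i₀ h ↔ chi i₀ (dm i₀ i₁ m * h)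

theorem chi'_step (m : ℕ) (h : FreeGroup ι) (i : ι) (e : i ≠ i₀) :
    chi' i₀ i₁ m (h * of i) ↔ chi' i₀ i₁ m h := by
  unfold chi'
  rw [← mul_assoc, chi_step, chi_step]
  simp [e]

include hi in
theorem chi'_dm (m : ℕ) (h : FreeGroup ι) :
    chi' i₀ i₁ m (h * dm i₀ i₁ m) ↔ (chi' i₀ i₁ m h ↔ (h ≠ 1 ∧ h ≠ (dm i₀ i₁ m)⁻¹)) := by
  unfold chi'
  rw [← mul_assoc, chi_dm i₀ hi, chi_dm i₀ hi]
  have hd := dm_ne i₀ hi m
  by_cases h1 : h = 1
  · subst h1
    simp [hd]
    grind
  · by_cases h2 : dm i₀ i₁ m * h = 1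
    · have : h = (dm i₀ i₁ m)⁻¹ := eq_inv_of_mul_eq_one_right h2
      subst this
      simp [hd]
      grind
    · have : h ≠ (dm i₀ i₁ m)⁻¹ := by
        rintro rfl
        simp at h2
      simp [h1, h2, this]

include hi in
theorem chi'_one (m : ℕ) : ¬ chi' i₀ i₁ m 1 := by
  have := chi_dm i₀ hi m 1
  have h1 := chi_one i₀
  unfold chi'
  simp only [one_mul, mul_one] at this ⊢
  grind

include hi in
theorem chi'_d (m : ℕ) : chi' i₀ i₁ m (dm i₀ i₁ m) := by
  have := chi'_dm i₀ hi m 1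
  have h1 := chi'_one i₀ hi m
  simp only [one_mul] at this
  grind

include hi in
theorem chi'_di (m : ℕ) : chi' i₀ i₁ m (dm i₀ i₁ m)⁻¹ := by
  have := chi'_dm i₀ hi m (dm i₀ i₁ m)⁻¹
  have h1 := chi'_one i₀ hi m
  simp only [inv_mul_cancel] at this
  grind

theorem chi'_fin (m : ℕ) (g : FreeGroup ι) : (sep (chi' i₀ i₁ m) 1 g).Finite := by
  have h1 := chi_fin i₀ g
  refine (h1.union (h1.image (fun k => (dm i₀ i₁ m)⁻¹ * k))).subset ?_
  intro k hk
  by_cases h : k ∈ sep (chi i₀) 1 g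
  · exact Or.inl h
  · refine Or.inr ⟨dm i₀ i₁ m * k, ?_, by simp⟩
    simp only [sep, chi', Set.mem_ofPred_eq, mul_assoc] at hk h ⊢
    grind

include hi in
theorem chi'_or (m : ℕ) (h : FreeGroup ι) :
    chi' i₀ i₁ m h ∨ chi' i₀ i₁ m (dm i₀ i₁ m * h) := by
  have hd := dm_ne i₀ hi m
  have a1 := chi'_d i₀ hi m
  have a2 := chi'_di i₀ hi m
  have := const_of' i₀ m
    (Z := fun h => chi' i₀ i₁ m h ∨ chi' i₀ i₁ m (dm i₀ i₁ m * h)) ?_ hi ?_ h 1
  · simpa [a1] using this
  · intro g i e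
    simp only [← mul_assoc, chi'_step i₀ m _ i e]
  · intro g
    set d := dm i₀ i₁ m with hdd
    by_cases h1 : g = 1
    · subst h1
      simp [a1]
    · by_cases h2 : g = d⁻¹
      · subst h2
        simp [a1, a2]
      · by_cases h3 : d * g = d⁻¹
        · have e : g * d = d⁻¹ := by
            have : g = d⁻¹ * d⁻¹ := eq_inv_mul_of_mul_eq h3
            rw [this]; simp
          simp [e, h3, a2]
        · have h4 : d * g ≠ 1 := fun e => h2 (eq_inv_of_mul_eq_one_right e)
          simp only [← mul_assoc, hdd, chi'_dm i₀ hi]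
          simp [← hdd, h1, h2, h3, h4]

include hi in
theorem chi'_nest (m : ℕ) (k : FreeGroup ι) (hk : k ≠ 1) :
    ∃ α β : Prop, ∀ h, (chi' i₀ i₁ m h ↔ α) ∨ (chi' i₀ i₁ m (k * h) ↔ β) := by
  by_cases k1 : k = dm i₀ i₁ m
  · refine ⟨True, True, fun h => ?_⟩
    simpa [k1] using chi'_or i₀ hi m h
  by_cases k2 : k = (dm i₀ i₁ m)⁻¹
  · refine ⟨True, True, fun h => ?_⟩
    have := chi'_or i₀ hi m (k * h)
    rw [k2, mul_inv_cancel_left, ← k2] at this
    simpa [or_comm] using this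
  refine ⟨chi' i₀ i₁ m k⁻¹, chi' i₀ i₁ m k, fun h => ?_⟩
  have := const_of' i₀ m (Z := fun h => (chi' i₀ i₁ m h ↔ chi' i₀ i₁ m k⁻¹) ∨
    (chi' i₀ i₁ m (k * h) ↔ chi' i₀ i₁ m k)) ?_ hi ?_ h 1
  · simpa using this
  · intro g i e
    simp only [← mul_assoc, chi'_step i₀ m _ i e]
  · intro g
    have S := chi'_dm i₀ hi m
    set d := dm i₀ i₁ m with hdd
    have hki : k⁻¹ ≠ 1 := inv_ne_one.2 hk
    have hki2 : k⁻¹ ≠ d⁻¹ := fun e => k1 (inv_injective e)
    by_cases h1 : g = 1
    · subst h1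
      have := S k
      simp only [one_mul, mul_one]
      grind
    by_cases h2 : g = d⁻¹
    · subst h2
      have := S (k * d⁻¹)
      have b1 : k * d⁻¹ ≠ 1 := fun e => k1 (mul_inv_eq_one.1 e)
      have b2 : k * d⁻¹ ≠ d⁻¹ := by simpa using hk
      simp only [inv_mul_cancel_right] at this
      simp only [inv_mul_cancel, mul_one]
      grind
    by_cases h3 : k * g = 1
    · have : g = k⁻¹ := eq_inv_of_mul_eq_one_right h3
      subst this
      have := S k⁻¹
      grind
    by_cases h4 : k * g = d⁻¹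
    · have e : g * d = k⁻¹ := by
        have : g = k⁻¹ * d⁻¹ := by rw [← h4]; simp
        rw [this]; simp
      have := S g
      rw [e] at this ⊢
      grind
    · have b1 := S g
      have b2 := S (k * g)
      simp only [← mul_assoc]
      grind

theorem sep'_ncard (m : ℕ) (g : FreeGroup ι)
    (h : dm i₀ i₁ m ∉ Set.image2 (fun a b => a * b⁻¹) (sep (chi i₀) 1 g) (sep (chi i₀) 1 g)) :
    (sep (chi' i₀ i₁ m) 1 g).ncard = 2 * (sep (chi i₀) 1 g).ncard := by
  have h1 := chi_fin i₀ g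
  have hd : ∀ k, k ∈ sep (chi i₀) 1 g → dm i₀ i₁ m * k ∉ sep (chi i₀) 1 g := by
    intro k a b
    exact h ⟨_, b, _, a, by simp⟩
  have e : sep (chi' i₀ i₁ m) 1 g =
      sep (chi i₀) 1 g ∪ (fun k => (dm i₀ i₁ m)⁻¹ * k) '' sep (chi i₀) 1 g := by
    ext k
    have e2 : k ∈ (fun k => (dm i₀ i₁ m)⁻¹ * k) '' sep (chi i₀) 1 g ↔
        dm i₀ i₁ m * k ∈ sep (chi i₀) 1 g := by
      constructor
      · rintro ⟨l, hl, rfl⟩
        simpa using hl
      · intro hl
        exact ⟨_, hl, by simp⟩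
    rw [Set.mem_union, e2]
    have := hd k
    simp only [sep, chi', Set.mem_ofPred_eq, mul_assoc] at this ⊢
    grind
  rw [e, Set.ncard_union_eq _ h1 (h1.image _),
    Set.ncard_image_of_injective _ (mul_right_injective _), two_mul]
  rw [Set.disjoint_left]
  rintro k a ⟨l, hl, rfl⟩
  exact hd _ a (by simpa using hl)

include hi in
theorem sep_d (m : ℕ) : (sep (chi i₀) 1 (dm i₀ i₁ m)).ncard = 1 := by
  have : sep (chi i₀) 1 (dm i₀ i₁ m) = {1} := by
    ext k
    simp only [sep, Set.mem_ofPred_eq, mul_one, chi_dm i₀ hi, Set.mem_singleton_iff]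
    grind
  rw [this, Set.ncard_singleton]

include hi in
theorem sep_dd (m : ℕ) : (sep (chi i₀) 1 (dm i₀ i₁ m * dm i₀ i₁ m)).ncard = 2 := by
  have hd := dm_ne i₀ hi m
  have : sep (chi i₀) 1 (dm i₀ i₁ m * dm i₀ i₁ m) = {1, (dm i₀ i₁ m)⁻¹} := by
    ext k
    simp only [sep, Set.mem_ofPred_eq, mul_one, ← mul_assoc, chi_dm i₀ hi, Set.mem_insert_iff,
      Set.mem_singleton_iff, ne_eq, mul_eq_one_iff_eq_inv]
    have : ¬ (k = 1 ∧ k = (dm i₀ i₁ m)⁻¹) := by
      rintro ⟨a, b⟩
      rw [a] at b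
      exact hd (inv_eq_one.1 b.symm)
    grind
  rw [this, Set.ncard_pair (inv_ne_one.2 hd).symm]

include hi in
theorem sep'_d (m : ℕ) : (sep (chi' i₀ i₁ m) 1 (dm i₀ i₁ m)).ncard = 2 := by
  have hd := dm_ne i₀ hi m
  have : sep (chi' i₀ i₁ m) 1 (dm i₀ i₁ m) = {1, (dm i₀ i₁ m)⁻¹} := by
    ext k
    simp only [sep, Set.mem_ofPred_eq, mul_one, chi'_dm i₀ hi, Set.mem_insert_iff,
      Set.mem_singleton_iff]
    grind
  rw [this, Set.ncard_pair (inv_ne_one.2 hd).symm]

include hi in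
theorem sep'_dd (m : ℕ) : (sep (chi' i₀ i₁ m) 1 (dm i₀ i₁ m * dm i₀ i₁ m)).ncard ≤ 2 := by
  have : sep (chi' i₀ i₁ m) 1 (dm i₀ i₁ m * dm i₀ i₁ m) ⊆
      {1, (dm i₀ i₁ m)⁻¹ * (dm i₀ i₁ m)⁻¹} := by
    intro k hk
    have hd := dm_ne i₀ hi m
    simp only [sep, Set.mem_ofPred_eq, mul_one, ← mul_assoc, chi'_dm i₀ hi, ne_eq,
      mul_eq_one_iff_eq_inv] at hk
    simp only [Set.mem_insert_iff, Set.mem_singleton_iff, eq_mul_inv_iff_mul_eq]
    by_cases h : k = (dm i₀ i₁ m)⁻¹
    · grind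
    · grind
  exact (Set.ncard_le_ncard this (Set.toFinite _)).trans (Set.ncard_insert_le _ _ |>.trans (by simp))

include hi in
theorem sep_a : (sep (chi i₀) 1 (of i₁)).ncard = 0 := by
  have : sep (chi i₀) 1 (of i₁) = ∅ := by
    ext k
    simp [sep, chi_step, hi]
  simp [this]

include hi in
theorem sep'_a (m : ℕ) : (sep (chi' i₀ i₁ m) 1 (of i₁)).ncard = 0 := by
  have : sep (chi' i₀ i₁ m) 1 (of i₁) = ∅ := by
    ext k
    simp [sep, chi'_step i₀ m _ _ hi]
  simp [this]

/-- the HNN tree -/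
noncomputable def T0 : TD (FreeGroup ι) := wallTD (chi i₀) 1 one_pos (chi_fin i₀) (chi_nest i₀)

/-- the free product trees -/
noncomputable def T1 (m : ℕ) : TD (FreeGroup ι) :=
  wallTD (chi' i₀ i₁ m) (1 / 2) (by norm_num) (chi'_fin i₀ m) (chi'_nest i₀ hi m)

theorem T0_D (g : FreeGroup ι) : (T0 i₀).D 1 g = (sep (chi i₀) 1 g).ncard := one_mul _

theorem T1_D (m : ℕ) (g : FreeGroup ι) :
    (T1 i₀ hi m).D 1 g = 1 / 2 * (sep (chi' i₀ i₁ m) 1 g).ncard := rfl

theorem agree (S : Set (FreeGroup ι)) (hS : S.Finite) :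
    ∃ m, ∀ g ∈ S, (T1 i₀ hi m).D 1 g = (T0 i₀).D 1 g := by
  have hf : (⋃ g ∈ S, Set.image2 (fun a b => a * b⁻¹) (sep (chi i₀) 1 g)
      (sep (chi i₀) 1 g)).Finite :=
    hS.biUnion (fun g _ => (chi_fin i₀ g).image2 _ (chi_fin i₀ g))
  obtain ⟨_, ⟨m, rfl⟩, hm⟩ :=
    (Set.infinite_range_of_injective (dm_inj i₀ (i₁ := i₁))).exists_notMem_finite hf
  refine ⟨m, fun g hg => ?_⟩
  rw [T1_D, T0_D, sep'_ncard i₀ m g (fun h => hm (Set.mem_biUnion hg h))]
  push_cast; ring

end Free

end Pool.Agent.H.MP_93ccfe_al
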